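import Mathlib

set_option autoImplicit false
set_option linter.unusedSectionVars false

/-!
A hypergraph in which the union of every nonempty family `S` of edges has at least
`m |S| + 1` elements has a colouring with `m + 1` colours such that every edge has all colours.
-/

namespace Run7.h949.EX

open Finset

theorem colouring {ι L : Type} [Fintype ι] [DecidableEq ι] [Fintype L] [DecidableEq L] (m : ℕ)
    (D : ι → Finset L)
    (h : ∀ S : Finset ι, S.Nonempty → m * S.card + 1 ≤ (S.biUnion D).card) :
    ∃ c : L → Fin (m + 1), ∀ i, ∀ a : Fin (m + 1), ∃ x ∈ D i, c x = a := by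
  classical
  by_cases hι : IsEmpty ι
  · exact ⟨fun _ => 0, fun i => (hι.false i).elim⟩
  rw [not_isEmpty_iff] at hι
  obtain ⟨i0⟩ := hι
  obtain ⟨r, hr⟩ : ((({i0} : Finset ι)).biUnion D).Nonempty := by
    rw [← Finset.card_pos]
    have := h {i0} (Finset.singleton_nonempty _)
    omega
  -- distinct representatives
  have hall : ∀ s : Finset (ι × Fin m),
      s.card ≤ (s.biUnion (fun x => (D x.1).erase r)).card := by
    intro s
    rcases s.eq_empty_or_nonempty with hs | hs
    · rw [hs]; simp
    · have h1 := h (s.image Prod.fst) (hs.image _)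
      have h2 : s.biUnion (fun x => (D x.1).erase r) =
          ((s.image Prod.fst).biUnion D).erase r := by
        ext l
        simp only [Finset.mem_biUnion, Finset.mem_erase, Finset.mem_image]
        constructor
        · rintro ⟨x, hx, hl1, hl2⟩
          exact ⟨hl1, x.1, ⟨x, hx, rfl⟩, hl2⟩
        · rintro ⟨hl1, i, ⟨x, hx, rfl⟩, hl2⟩
          exact ⟨x, hx, hl1, hl2⟩
      have h3 : s.card ≤ m * (s.image Prod.fst).card := by
        calc s.card ≤ ((s.image Prod.fst) ×ˢ (univ : Finset (Fin m))).card := by
              apply Finset.card_le_card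
              intro x hx
              rw [Finset.mem_product]
              exact ⟨Finset.mem_image_of_mem _ hx, Finset.mem_univ _⟩
          _ = m * (s.image Prod.fst).card := by
              rw [Finset.card_product, Finset.card_univ, Fintype.card_fin, mul_comm]
      have h4 := Finset.pred_card_le_card_erase (s := (s.image Prod.fst).biUnion D) (a := r)
      rw [h2]
      omega
  obtain ⟨x, hx1, hx2⟩ := (Finset.all_card_le_biUnion_card_iff_exists_injective _).1 hall
  have hxD : ∀ i a, x (i, a) ∈ D i := fun i a => (Finset.mem_erase.1 (hx2 (i, a))).2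
  -- the greedy colouring
  have key : ∀ n : ℕ, n ≤ Fintype.card ι → ∃ (S : Finset ι) (c : L → Fin (m + 1)), S.card = n ∧
      ∀ i ∈ S, ∀ a, ∃ y ∈ D i, c y = a ∧ ∀ j b, y = x (j, b) → j ∈ S := by
    intro n
    induction n with
    | zero =>
      intro _
      exact ⟨∅, fun _ => 0, rfl, fun i hi => absurd hi (Finset.notMem_empty i)⟩
    | succ n ih =>
      intro hn
      obtain ⟨S, c, hS, hc⟩ := ih (by omega)
      -- an unprocessed edge with a coloured element
      obtain ⟨f, hf, y, hy, hyc⟩ : ∃ f, f ∉ S ∧ ∃ y ∈ D f, ∀ j b, y = x (j, b) → j ∈ S := by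
        by_contra hcon
        push Not at hcon
        have hne : (univ \ S).Nonempty := by
          rw [← Finset.card_pos, Finset.card_sdiff_of_subset (Finset.subset_univ _),
            Finset.card_univ]
          omega
        have h1 := h _ hne
        have h2 : (univ \ S).biUnion D ⊆
            ((univ \ S) ×ˢ (univ : Finset (Fin m))).image x := by
          intro l hl
          rw [Finset.mem_biUnion] at hl
          obtain ⟨i, hi, hl⟩ := hl
          obtain ⟨j, b, h3, h4⟩ := hcon i (Finset.mem_sdiff.1 hi).2 l hl
          rw [Finset.mem_image]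
          exact ⟨(j, b), Finset.mem_product.2
            ⟨Finset.mem_sdiff.2 ⟨Finset.mem_univ _, h4⟩, Finset.mem_univ _⟩, h3.symm⟩
        have h3 := (Finset.card_le_card h2).trans Finset.card_image_le
        rw [Finset.card_product, Finset.card_univ, Fintype.card_fin, mul_comm] at h3
        omega
      -- the new colours
      let c' : L → Fin (m + 1) := fun l =>
        if h : ∃ a, l = x (f, a) then (c y).succAbove h.choose else c l
      have hc'1 : ∀ a, c' (x (f, a)) = (c y).succAbove a := by
        intro a
        have h : ∃ b, x (f, a) = x (f, b) := ⟨a, rfl⟩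
        have h1 : h.choose = a := by
          have h2 := hx1 h.choose_spec
          exact ((Prod.ext_iff.1 h2).2).symm
        simp only [c']
        rw [dif_pos h, h1]
      have hc'2 : ∀ l, (∀ a, l ≠ x (f, a)) → c' l = c l := by
        intro l hl
        simp only [c']
        rw [dif_neg]
        rintro ⟨a, ha⟩
        exact hl a ha
      refine ⟨insert f S, c', ?_, ?_⟩
      · rw [Finset.card_insert_of_notMem hf, hS]
      · intro i hi a
        rcases Finset.mem_insert.1 hi with h1 | h1
        · subst h1
          by_cases ha : a = c y
          · refine ⟨y, hy, ?_, ?_⟩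
            · rw [hc'2 y, ha]
              intro b hb
              exact hf (hyc _ _ hb)
            · intro j b hb
              exact Finset.mem_insert_of_mem (hyc j b hb)
          · obtain ⟨b, hb⟩ := Fin.exists_succAbove_eq ha
            refine ⟨x (i, b), hxD i b, ?_, ?_⟩
            · rw [hc'1, hb]
            · intro j b' hb'
              have h2 := hx1 hb'
              have h3 : i = j := (Prod.ext_iff.1 h2).1
              rw [← h3]
              exact Finset.mem_insert_self _ _
        · obtain ⟨y', hy', hy'c, hy'S⟩ := hc i h1 a
          refine ⟨y', hy', ?_, ?_⟩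
          · rw [hc'2 y', hy'c]
            intro b hb
            exact hf (hy'S _ _ hb)
          · intro j b hb
            exact Finset.mem_insert_of_mem (hy'S j b hb)
  obtain ⟨S, c, hS, hc⟩ := key (Fintype.card ι) le_rfl
  have hS' : S = univ := by rw [← Finset.card_eq_iff_eq_univ]; exact hS
  refine ⟨c, fun i a => ?_⟩
  obtain ⟨y, hy, hya, _⟩ := hc i (by rw [hS']; exact Finset.mem_univ i) a
  exact ⟨y, hy, hya⟩

end Run7.h949.EX
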