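import Pool.Agent.Run7.h949.EX.Exchange

set_option autoImplicit false
set_option linter.unusedSectionVars false

/-!
Layers: even weights at most `2 k` and `k` disjoint sets of light edges.
-/

namespace Run7.h949.EX

open Finset
open Pool.Agent.H126R2.CDC
open Pool.Agent.TH300.FC (cut layer cut_or_circuit)

variable {V E : Type} [Fintype V] [DecidableEq V] [Fintype E] [DecidableEq E]

lemma countP_sum {ι : Type} (s : Finset ι) (F : ι → Multiset (Finset E)) (e : E) :
    (∑ c ∈ s, F c).countP (fun C => e ∈ C) = ∑ c ∈ s, (F c).countP (fun C => e ∈ C) := by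
  classical
  induction s using Finset.induction_on with
  | empty => simp
  | insert c s hc ih => rw [Finset.sum_insert hc, Finset.sum_insert hc, Multiset.countP_add, ih]

/-- a circuit cover from bridgeless layers -/
lemma cover_of_layers (G : MGraph V E) {ι : Type} [Fintype ι] (S : ι → Finset E)
    (hS : ∀ j, BL G (S j)) :
    ∃ M : Multiset (Finset E), (∀ C ∈ M, G.IsCircuit C) ∧
      ∀ e, M.countP (fun C => e ∈ C) = 2 * ∑ j, (if e ∈ S j then 1 else 0) := by
  classical
  have h : ∀ j, ∃ F : Multiset (Finset E), (∀ C ∈ F, G.IsCircuit C) ∧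
      ∀ e, F.countP (fun C => e ∈ C) = if e ∈ S j then 2 else 0 := by
    intro j
    exact layer G (fun e => e ∈ S j) (fun e he => hS j e he)
  choose F hF1 hF2 using h
  refine ⟨∑ j, F j, ?_, ?_⟩
  · intro C hC
    rw [Multiset.mem_sum] at hC
    obtain ⟨c, _, hc⟩ := hC
    exact hF1 c C hc
  · intro e
    rw [countP_sum, Finset.mul_sum]
    apply Finset.sum_congr rfl
    intro j _
    rw [hF2 j e]
    split_ifs <;> rfl

lemma one_ne_fin_zero (m : ℕ) : (1 : Fin (m + 2)) ≠ 0 := by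
  intro h
  rw [Fin.ext_iff] at h
  simp at h

/-- the choice of the layers of one edge -/
lemma choose_layers (m n : ℕ) (h1 : 1 ≤ n) (h2 : n ≤ m + 2) (p : Fin (m + 2) → Prop)
    (hp : ∀ i j, p i → p j → i = j) (hl : ∀ j, p j → n < m + 2) :
    ∃ J : Finset (Fin (m + 2)), J.card = n ∧ (∀ j, p j → j ∈ J) ∧
      (p 0 → (1 : Fin (m + 2)) ∉ J) ∧ (∀ j, j ≠ 0 → p j → (0 : Fin (m + 2)) ∉ J) := by
  classical
  by_cases h : ∃ j, p j
  · obtain ⟨j, hj⟩ := h
    have hlt := hl j hj
    obtain ⟨a, haj, ha1, ha2⟩ : ∃ a : Fin (m + 2), a ≠ j ∧ (j = 0 → a = 1) ∧ (j ≠ 0 → a = 0) := by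
      by_cases h0 : j = 0
      · refine ⟨1, ?_, fun _ => rfl, fun h => absurd h0 h⟩
        rw [h0]
        exact one_ne_fin_zero m
      · exact ⟨0, fun h => h0 h.symm, fun h => absurd h h0, fun _ => rfl⟩
    obtain ⟨J, hJ1, hJ2, hJ3⟩ := Finset.exists_subsuperset_card_eq (s := {j})
      (t := (univ : Finset (Fin (m + 2))).erase a) (n := n) (by
        intro x hx
        rw [Finset.mem_singleton] at hx
        subst hx
        exact Finset.mem_erase.2 ⟨haj.symm, Finset.mem_univ _⟩) (by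
        rw [Finset.card_singleton]; exact h1) (by
        rw [Finset.card_erase_of_mem (Finset.mem_univ _), Finset.card_univ, Fintype.card_fin]
        omega)
    have haJ : a ∉ J := fun h => (Finset.mem_erase.1 (hJ2 h)).1 rfl
    refine ⟨J, hJ3, ?_, ?_, ?_⟩
    · intro i hi
      rw [hp i j hi hj]
      exact hJ1 (Finset.mem_singleton_self j)
    · intro h0
      rw [← ha1 (hp j 0 hj h0)]
      exact haJ
    · intro i hi0 hi
      rw [← ha2 (fun h => hi0 ((hp i j hi hj).trans h))]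
      exact haJ
  · obtain ⟨J, hJ⟩ := Finset.exists_subset_card_eq (s := (univ : Finset (Fin (m + 2)))) (n := n)
      (by rw [Finset.card_univ, Fintype.card_fin]; exact h2)
    refine ⟨J, hJ.2, ?_, ?_, ?_⟩
    · intro j hj; exact absurd ⟨j, hj⟩ h
    · intro hj; exact absurd ⟨0, hj⟩ h
    · intro j _ hj; exact absurd ⟨j, hj⟩ h

theorem core (G : MGraph V E) (m : ℕ) (q : E → ℕ) (hq1 : ∀ e, 1 ≤ q e) (hq2 : ∀ e, q e ≤ m + 2)
    (P : Fin (m + 2) → Finset E) (hP : ∀ i j, i ≠ j → Disjoint (P i) (P j))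
    (hl : ∀ j, ∀ e ∈ P j, q e < m + 2)
    (hs : ∀ j, ∀ z, z ∉ P j → ∃ C, G.IsCircuit C ∧ z ∈ C ∧
      ∀ f ∈ C, f = z ∨ f ∈ P j ∨ q f = m + 2) :
    ∃ M : Multiset (Finset E), (∀ C ∈ M, G.IsCircuit C) ∧
      ∀ e, M.countP (fun C => e ∈ C) = 2 * q e := by
  classical
  have hP' : ∀ i j e, e ∈ P i → e ∈ P j → i = j := by
    intro i j e hi hj
    by_contra hne
    exact Finset.disjoint_left.1 (hP i j hne) hi hj
  choose J hJ1 hJ2 hJ3 hJ4 using fun e => choose_layers m (q e) (hq1 e) (hq2 e)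
    (fun j => e ∈ P j) (fun i j hi hj => hP' i j e hi hj) (fun j hj => hl j e hj)
  let R : Fin (m + 2) → Finset E := fun j => univ.filter (fun e => j ∈ J e)
  have memR : ∀ j e, e ∈ R j ↔ j ∈ J e := by
    intro j e
    simp only [R, Finset.mem_filter, Finset.mem_univ, true_and]
  have hfull : ∀ e, q e = m + 2 → ∀ j, j ∈ J e := by
    intro e he j
    have h1 : J e = univ := by
      rw [← Finset.card_eq_iff_eq_univ, hJ1 e, he, Fintype.card_fin]
    rw [h1]
    exact Finset.mem_univ _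
  have hPR : ∀ j, P j ⊆ R j := fun j e he => (memR j e).2 (hJ2 e j he)
  -- circuits in the layers
  have hcirc : ∀ j z, z ∉ P j → ∃ C, G.IsCircuit C ∧ z ∈ C ∧ C ⊆ insert z (R j) := by
    intro j z hz
    obtain ⟨C, hC, hzC, hCs⟩ := hs j z hz
    refine ⟨C, hC, hzC, fun f hf => ?_⟩
    rw [Finset.mem_insert]
    rcases hCs f hf with h | h | h
    · exact Or.inl h
    · exact Or.inr (hPR j h)
    · exact Or.inr ((memR j f).2 (hfull f h j))
  -- the bridgeless part of a layer
  let R' : Fin (m + 2) → Finset E := fun j =>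
    univ.filter (fun e => ∃ C, G.IsCircuit C ∧ e ∈ C ∧ C ⊆ R j)
  have memR' : ∀ j e, e ∈ R' j ↔ ∃ C, G.IsCircuit C ∧ e ∈ C ∧ C ⊆ R j := by
    intro j e
    simp only [R', Finset.mem_filter, Finset.mem_univ, true_and]
  have hR'R : ∀ j, R' j ⊆ R j := by
    intro j e he
    obtain ⟨C, _, heC, hCs⟩ := (memR' j e).1 he
    exact hCs heC
  have hBR' : ∀ j, BL G (R' j) := by
    intro j e he
    obtain ⟨C, hC, heC, hCs⟩ := (memR' j e).1 he
    exact ⟨C, hC, heC, fun f hf => (memR' j f).2 ⟨C, hC, hf, hCs⟩⟩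
  have hbP : ∀ j e, e ∈ R j → e ∉ R' j → e ∈ P j := by
    intro j e he he'
    by_contra hcon
    obtain ⟨C, hC, heC, hCs⟩ := hcirc j e hcon
    rw [Finset.insert_eq_of_mem he] at hCs
    exact he' ((memR' j e).2 ⟨C, hC, heC, hCs⟩)
  -- the first layer together with the bridges of the layers from the third one on
  let T : Finset E := univ.filter (fun e => e ∈ R 0 ∨ ∃ i : Fin m, e ∈ R i.succ.succ ∧
    e ∉ R' i.succ.succ)
  have memT : ∀ e, e ∈ T ↔ e ∈ R 0 ∨ ∃ i : Fin m, e ∈ R i.succ.succ ∧ e ∉ R' i.succ.succ := by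
    intro e
    simp only [T, Finset.mem_filter, Finset.mem_univ, true_and]
  have hne0 : ∀ i : Fin m, i.succ.succ ≠ (0 : Fin (m + 2)) := fun i => Fin.succ_ne_zero _
  have hne1 : ∀ i : Fin m, i.succ.succ ≠ (1 : Fin (m + 2)) := by
    intro i h
    rw [Fin.ext_iff] at h
    simp at h
  have hb0 : ∀ (i : Fin m) e, e ∈ R i.succ.succ → e ∉ R' i.succ.succ → e ∉ R 0 := by
    intro i e h1 h2 h3
    exact hJ4 e _ (hne0 i) (hbP _ e h1 h2) ((memR 0 e).1 h3)
  have hR0T : R 0 ⊆ T := fun e he => (memT e).2 (Or.inl he)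
  have hz0 : ∀ z ∈ R 1, z ∉ P 0 := by
    intro z hz hz'
    exact hJ3 z hz' ((memR 1 z).1 hz)
  have hz1 : ∀ z ∈ T, z ∉ P 1 := by
    intro z hz hz'
    rcases (memT z).1 hz with h | ⟨i, h1, h2⟩
    · refine hJ4 z 1 ?_ hz' ((memR 0 z).1 h)
      exact one_ne_fin_zero m
    · have h3 := hbP _ z h1 h2
      exact hne1 i (hP' _ _ z h3 hz')
  obtain ⟨A, B, hAB1, hAB2, hA, hB⟩ := exchange G (T ∩ R 1) (T \ R 1) (R 1 \ T)
    (by
      rw [Finset.disjoint_left]
      intro e h1 h2
      exact (Finset.mem_sdiff.1 h2).2 (Finset.mem_inter.1 h1).2)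
    (by
      rw [Finset.disjoint_left]
      intro e h1 h2
      exact (Finset.mem_sdiff.1 h2).2 (Finset.mem_inter.1 h1).1)
    (by
      rw [Finset.disjoint_left]
      intro e h1 h2
      exact (Finset.mem_sdiff.1 h2).2 (Finset.mem_sdiff.1 h1).1)
    (by
      intro z hz
      have hz1 : z ∈ R 1 := by
        rcases Finset.mem_union.1 hz with h | h
        · exact (Finset.mem_inter.1 h).2
        · exact (Finset.mem_sdiff.1 h).1
      obtain ⟨C, hC, hzC, hCs⟩ := hcirc 0 z (hz0 z hz1)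
      refine ⟨C, hC, hzC, fun f hf => ?_⟩
      rcases Finset.mem_insert.1 (hCs hf) with h | h
      · exact Finset.mem_insert.2 (Or.inl h)
      · apply Finset.mem_insert_of_mem
        have h3 := hR0T h
        rw [Finset.mem_union, Finset.mem_inter, Finset.mem_sdiff]
        by_cases h4 : f ∈ R 1
        · exact Or.inl ⟨h3, h4⟩
        · exact Or.inr ⟨h3, h4⟩)
    (by
      intro z hz
      have hzT : z ∈ T := by
        rcases Finset.mem_union.1 hz with h | h
        · exact (Finset.mem_inter.1 h).1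
        · exact (Finset.mem_sdiff.1 h).1
      obtain ⟨C, hC, hzC, hCs⟩ := hcirc 1 z (hz1 z hzT)
      refine ⟨C, hC, hzC, fun f hf => ?_⟩
      rcases Finset.mem_insert.1 (hCs hf) with h | h
      · exact Finset.mem_insert.2 (Or.inl h)
      · apply Finset.mem_insert_of_mem
        rw [Finset.mem_union, Finset.mem_inter, Finset.mem_sdiff]
        by_cases h4 : f ∈ T
        · exact Or.inl ⟨h4, h⟩
        · exact Or.inr ⟨h, h4⟩)
  let S : Fin (m + 2) → Finset E := fun j => if j = 0 then A else if j = 1 then B else R' j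
  have hS0 : S 0 = A := by simp only [S, if_true]
  have hS1 : S 1 = B := by
    simp only [S]
    rw [if_neg (one_ne_fin_zero m)]
    simp
  have hSi : ∀ i : Fin m, S i.succ.succ = R' i.succ.succ := by
    intro i
    simp only [S]
    rw [if_neg (hne0 i), if_neg (hne1 i)]
  obtain ⟨M, hM1, hM2⟩ := cover_of_layers G S (by
    intro j
    simp only [S]
    split_ifs
    · exact hA
    · exact hB
    · exact hBR' j)
  refine ⟨M, hM1, fun e => ?_⟩
  rw [hM2 e]
  congr 1
  -- the count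
  have hone : (1 : Fin (m + 2)) = Fin.succ 0 := rfl
  have h1 : q e = ∑ j : Fin (m + 2), (if e ∈ R j then 1 else 0) := by
    rw [← hJ1 e, Finset.card_eq_sum_ones, ← Finset.sum_filter]
    apply Finset.sum_congr _ (fun _ _ => rfl)
    ext j
    rw [Finset.mem_filter, memR]
    simp
  rw [h1]
  rw [Fin.sum_univ_succ, Fin.sum_univ_succ (n := m), Fin.sum_univ_succ, Fin.sum_univ_succ (n := m)]
  rw [← hone, hS0, hS1]
  have h2 : ∀ i : Fin m, (if e ∈ R i.succ.succ then 1 else 0) =
      (if e ∈ S i.succ.succ then 1 else 0) +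
        (if e ∈ R i.succ.succ ∧ e ∉ R' i.succ.succ then 1 else 0) := by
    intro i
    rw [hSi i]
    by_cases h3 : e ∈ R' i.succ.succ
    · have h4 := hR'R _ h3
      simp [h3, h4]
    · by_cases h4 : e ∈ R i.succ.succ <;> simp [h3, h4]
  rw [Finset.sum_congr rfl (fun i _ => h2 i), Finset.sum_add_distrib]
  have h3 : (if e ∈ T then 1 else 0) = (if e ∈ R 0 then 1 else 0) +
      ∑ i : Fin m, (if e ∈ R i.succ.succ ∧ e ∉ R' i.succ.succ then 1 else 0) := by
    by_cases h4 : ∃ i : Fin m, e ∈ R i.succ.succ ∧ e ∉ R' i.succ.succ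
    · obtain ⟨i, hi1, hi2⟩ := h4
      have e1 : (if e ∈ T then 1 else 0) = 1 := if_pos ((memT e).2 (Or.inr ⟨i, hi1, hi2⟩))
      have e2 : (if e ∈ R 0 then 1 else 0) = 0 := if_neg (hb0 i e hi1 hi2)
      have e3 : (if e ∈ R i.succ.succ ∧ e ∉ R' i.succ.succ then 1 else 0) = 1 :=
        if_pos ⟨hi1, hi2⟩
      rw [Finset.sum_eq_single i]
      · rw [e1, e2, e3, zero_add]
      · intro i' _ hne
        rw [if_neg]
        rintro ⟨h5, h6⟩
        apply hne
        have h7 := hP' _ _ e (hbP _ e h5 h6) (hbP _ e hi1 hi2)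
        exact Fin.succ_injective _ (Fin.succ_injective _ h7)
      · intro h; exact absurd (Finset.mem_univ _) h
    · rw [Finset.sum_eq_zero]
      · by_cases h5 : e ∈ R 0
        · have e1 : (if e ∈ T then 1 else 0) = 1 := if_pos (hR0T h5)
          have e2 : (if e ∈ R 0 then 1 else 0) = 1 := if_pos h5
          rw [e1, e2, add_zero]
        · have e1 : (if e ∈ T then 1 else 0) = 0 := by
            apply if_neg
            intro h6
            rcases (memT e).1 h6 with h7 | h7
            · exact h5 h7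
            · exact h4 h7
          have e2 : (if e ∈ R 0 then 1 else 0) = 0 := if_neg h5
          rw [e1, e2, add_zero]
      · intro i _
        rw [if_neg]
        intro h5
        exact h4 ⟨i, h5⟩
  have h4 : (if e ∈ A then 1 else 0) + (if e ∈ B then 1 else 0) =
      (if e ∈ T then 1 else 0) + (if e ∈ R 1 then 1 else 0) := by
    have h5 : e ∈ A ∪ B ↔ e ∈ T ∨ e ∈ R 1 := by
      rw [hAB1, Finset.mem_union, Finset.mem_union, Finset.mem_inter, Finset.mem_sdiff,
        Finset.mem_sdiff]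
      tauto
    have h6 : e ∈ A ∩ B ↔ e ∈ T ∧ e ∈ R 1 := by
      rw [hAB2, Finset.mem_inter]
    rw [Finset.mem_union] at h5
    rw [Finset.mem_inter] at h6
    by_cases a1 : e ∈ A <;> by_cases a2 : e ∈ B <;> by_cases a3 : e ∈ T <;>
      by_cases a4 : e ∈ R 1 <;> simp [a1, a2, a3, a4] at h5 h6 ⊢
  omega

end Run7.h949.EX
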