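import Pool.Agent.TH300.FC.Dual

set_option autoImplicit false
set_option linter.unusedSectionVars false

/-!
The exchange lemma: two edge sets with given union and intersection can be made bridgeless.
-/

namespace Run7.h949.EX

open Finset
open Pool.Agent.H126R2.CDC
open Pool.Agent.TH300.FC (cut layer cut_or_circuit)

variable {V E : Type} [Fintype V] [DecidableEq V] [Fintype E] [DecidableEq E]

/-- every edge of `A` lies on a circuit inside `A` -/
def BL (G : MGraph V E) (A : Finset E) : Prop :=
  ∀ e ∈ A, ∃ C, G.IsCircuit C ∧ e ∈ C ∧ C ⊆ A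

theorem exchange (G : MGraph V E) (F P Q : Finset E) (hFP : Disjoint F P) (hFQ : Disjoint F Q)
    (hPQ : Disjoint P Q)
    (h1 : ∀ z ∈ F ∪ Q, ∃ C, G.IsCircuit C ∧ z ∈ C ∧ C ⊆ insert z (F ∪ P))
    (h2 : ∀ z ∈ F ∪ P, ∃ C, G.IsCircuit C ∧ z ∈ C ∧ C ⊆ insert z (F ∪ Q)) :
    ∃ A B : Finset E, A ∪ B = F ∪ P ∪ Q ∧ A ∩ B = F ∧ BL G A ∧ BL G B := by
  classical
  let U : Finset E := F ∪ P ∪ Q
  let B : Finset E → Finset E := fun A => F ∪ (U \ A)
  have memB : ∀ A e, e ∈ B A ↔ e ∈ F ∨ (e ∈ U ∧ e ∉ A) := by
    intro A e
    simp only [B, Finset.mem_union, Finset.mem_sdiff]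
  have memU : ∀ e, e ∈ U ↔ (e ∈ F ∨ e ∈ P) ∨ e ∈ Q := by
    intro e
    simp only [U, Finset.mem_union]
  let St : Finset E → Prop := fun A =>
    F ⊆ A ∧ A ⊆ U ∧ BL G A ∧
    (∀ C, G.IsCircuit C → C ⊆ F ∪ Q → C ⊆ B A) ∧
    (∀ w ∈ P, w ∉ A → ∃ D, G.IsCircuit D ∧ w ∈ D ∧ D ⊆ insert w (F ∪ Q) ∧ D ⊆ B A)
  have hFP' : ∀ e, e ∈ F → e ∉ P := fun e he he' => Finset.disjoint_left.1 hFP he he'
  have hFQ' : ∀ e, e ∈ F → e ∉ Q := fun e he he' => Finset.disjoint_left.1 hFQ he he'
  have hPQ' : ∀ e, e ∈ P → e ∉ Q := fun e he he' => Finset.disjoint_left.1 hPQ he he'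
  -- the starting state
  have h0 : St (univ.filter (fun e => ∃ C, G.IsCircuit C ∧ e ∈ C ∧ C ⊆ F ∪ P)) := by
    have hmem : ∀ e, e ∈ univ.filter (fun e => ∃ C, G.IsCircuit C ∧ e ∈ C ∧ C ⊆ F ∪ P) →
        e ∈ F ∪ P := by
      intro e he
      obtain ⟨C, _, heC, hCs⟩ := (Finset.mem_filter.1 he).2
      exact hCs heC
    refine ⟨?_, ?_, ?_, ?_, ?_⟩
    · intro e he
      rw [Finset.mem_filter]
      refine ⟨Finset.mem_univ _, ?_⟩
      obtain ⟨C, hC, heC, hCs⟩ := h1 e (Finset.mem_union_left _ he)
      refine ⟨C, hC, heC, ?_⟩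
      rw [Finset.insert_eq_of_mem (Finset.mem_union_left _ he)] at hCs
      exact hCs
    · intro e he
      rw [memU]
      left
      exact Finset.mem_union.1 (hmem e he)
    · intro e he
      obtain ⟨C, hC, heC, hCs⟩ := (Finset.mem_filter.1 he).2
      exact ⟨C, hC, heC, fun f hf => Finset.mem_filter.2 ⟨Finset.mem_univ _, C, hC, hf, hCs⟩⟩
    · intro C _ hCs f hf
      rw [memB]
      rcases Finset.mem_union.1 (hCs hf) with h | h
      · left; exact h
      · right
        refine ⟨(memU f).2 (Or.inr h), fun h3 => ?_⟩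
        rcases Finset.mem_union.1 (hmem f h3) with h4 | h4
        · exact hFQ' f h4 h
        · exact hPQ' f h4 h
    · intro w hw hwA
      obtain ⟨D, hD, hwD, hDs⟩ := h2 w (Finset.mem_union_right _ hw)
      refine ⟨D, hD, hwD, hDs, fun f hf => ?_⟩
      rw [memB]
      rcases Finset.mem_insert.1 (hDs hf) with h | h
      · subst h
        right
        exact ⟨(memU f).2 (Or.inl (Or.inr hw)), hwA⟩
      · rcases Finset.mem_union.1 h with h | h
        · left; exact h
        · right
          refine ⟨(memU f).2 (Or.inr h), fun h3 => ?_⟩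
          rcases Finset.mem_union.1 (hmem f h3) with h4 | h4
          · exact hFQ' f h4 h
          · exact hPQ' f h4 h
  obtain ⟨A, hA, hmax⟩ := Finset.exists_max_image (univ.filter St) Finset.card
    ⟨_, Finset.mem_filter.2 ⟨Finset.mem_univ _, h0⟩⟩
  obtain ⟨hFA, hAU, hBA, hI1, hI2⟩ := (Finset.mem_filter.1 hA).2
  refine ⟨A, B A, ?_, ?_, hBA, ?_⟩
  · ext e
    have hU : e ∈ F ∪ P ∪ Q ↔ e ∈ U := Iff.rfl
    rw [Finset.mem_union, memB, hU]
    constructor
    · rintro (h3 | h3 | h3)
      · exact hAU h3
      · exact hAU (hFA h3)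
      · exact h3.1
    · intro h3
      by_cases h4 : e ∈ A
      · exact Or.inl h4
      · exact Or.inr (Or.inr ⟨h3, h4⟩)
  · ext e
    rw [Finset.mem_inter, memB]
    constructor
    · rintro ⟨h3, h4 | h4⟩
      · exact h4
      · exact absurd h3 h4.2
    · intro h3
      exact ⟨hFA h3, Or.inl h3⟩
  · intro e he
    by_contra hcon
    have hcirc : ∀ C, G.IsCircuit C → C ⊆ B A → e ∉ C := fun C hC hCs heC =>
      hcon ⟨C, hC, heC, hCs⟩
    -- `e` is in `Q`
    have heQ : e ∈ Q ∧ e ∉ A := by
      rw [memB] at he
      rcases he with he | ⟨he, heA⟩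
      · exfalso
        obtain ⟨C, hC, heC, hCs⟩ := h2 e (Finset.mem_union_left _ he)
        rw [Finset.insert_eq_of_mem (Finset.mem_union_left _ he)] at hCs
        exact hcirc C hC (hI1 C hC hCs) heC
      · rw [memU] at he
        rcases he with (he | he) | he
        · exact absurd (hFA he) heA
        · exfalso
          obtain ⟨D, hD, heD, _, hDs⟩ := hI2 e he heA
          exact hcirc D hD hDs heD
        · exact ⟨he, heA⟩
    obtain ⟨heQ, heA⟩ := heQ
    obtain ⟨C, hC, heC, hCs⟩ := h1 e (Finset.mem_union_right _ heQ)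
    have hnew : St (A ∪ C) := by
      refine ⟨hFA.trans Finset.subset_union_left, ?_, ?_, ?_, ?_⟩
      · intro f hf
        rcases Finset.mem_union.1 hf with h | h
        · exact hAU h
        · rcases Finset.mem_insert.1 (hCs h) with h | h
          · subst h; exact (memU f).2 (Or.inr heQ)
          · exact (memU f).2 (Or.inl (Finset.mem_union.1 h))
      · intro f hf
        rcases Finset.mem_union.1 hf with h | h
        · obtain ⟨D, hD, hfD, hDs⟩ := hBA f h
          exact ⟨D, hD, hfD, hDs.trans Finset.subset_union_left⟩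
        · exact ⟨C, hC, h, Finset.subset_union_right⟩
      · intro D hD hDs f hf
        have h3 := hI1 D hD hDs
        have h4 := h3 hf
        rw [memB] at h4 ⊢
        rcases h4 with h4 | ⟨h4, h5⟩
        · left; exact h4
        · by_cases hfF : f ∈ F
          · left; exact hfF
          · right
            refine ⟨h4, fun h6 => ?_⟩
            rcases Finset.mem_union.1 h6 with h6 | h6
            · exact h5 h6
            · have hfQ : f ∈ Q := by
                rcases Finset.mem_union.1 (hDs hf) with h7 | h7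
                · exact absurd h7 hfF
                · exact h7
              rcases Finset.mem_insert.1 (hCs h6) with h7 | h7
              · subst h7
                exact hcirc D hD h3 hf
              · rcases Finset.mem_union.1 h7 with h7 | h7
                · exact hfF h7
                · exact hPQ' f h7 hfQ
      · intro w hw hwA
        rw [Finset.mem_union, not_or] at hwA
        obtain ⟨D, hD, hwD, hDs, hDB⟩ := hI2 w hw hwA.1
        refine ⟨D, hD, hwD, hDs, fun f hf => ?_⟩
        have h4 := hDB hf
        rw [memB] at h4 ⊢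
        rcases h4 with h4 | ⟨h4, h5⟩
        · left; exact h4
        · by_cases hfF : f ∈ F
          · left; exact hfF
          · right
            refine ⟨h4, fun h6 => ?_⟩
            rcases Finset.mem_union.1 h6 with h6 | h6
            · exact h5 h6
            · rcases Finset.mem_insert.1 (hDs hf) with h8 | h8
              · subst h8
                exact hwA.2 h6
              · have hfQ : f ∈ Q := by
                  rcases Finset.mem_union.1 h8 with h7 | h7
                  · exact absurd h7 hfF
                  · exact h7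
                rcases Finset.mem_insert.1 (hCs h6) with h7 | h7
                · subst h7
                  exact hcirc D hD hDB hf
                · rcases Finset.mem_union.1 h7 with h7 | h7
                  · exact hfF h7
                  · exact hPQ' f h7 hfQ
    have hle := hmax _ (Finset.mem_filter.2 ⟨Finset.mem_univ _, hnew⟩)
    have hlt : A.card < (A ∪ C).card := by
      apply Finset.card_lt_card
      rw [Finset.ssubset_iff_of_subset Finset.subset_union_left]
      exact ⟨e, Finset.mem_union_right _ heC, heA⟩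
    omega

end Run7.h949.EX
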