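import Pool.Agent.Run7.h949.EX.Mixed

set_option autoImplicit false
set_option linter.unusedSectionVars false

/-!
Weights of bounded ratio: decomposition into weights between `2` and `2 k`.
-/

namespace Run7.h949.EX

open Finset
open Pool.Agent.H126R2.CDC
open Pool.Agent.TH300.FC (cut layer cut_or_circuit ind mem_cut_iff)

variable {V E : Type} [Fintype V] [DecidableEq V] [Fintype E] [DecidableEq E]

/-- `(G, p)` has a circuit cover -/
def Cov (G : MGraph V E) (p : E → ℕ) : Prop :=
  ∃ M : Multiset (Finset E), (∀ C ∈ M, G.IsCircuit C) ∧ ∀ e, M.countP (fun C => e ∈ C) = p e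

lemma hermite (a : ℕ) (ha : 1 ≤ a) (q : ℕ) : ∑ i ∈ Finset.range a, (q + i) / a = q := by
  induction q with
  | zero =>
    apply Finset.sum_eq_zero
    intro i hi
    rw [Finset.mem_range] at hi
    rw [zero_add, Nat.div_eq_of_lt hi]
  | succ q ih =>
    have h1 : ∑ i ∈ Finset.range a, (q + 1 + i) / a = ∑ i ∈ Finset.range a, (q + (i + 1)) / a := by
      apply Finset.sum_congr rfl
      intro i _
      congr 1
      omega
    have h2 := Finset.sum_range_succ' (fun i => (q + i) / a) a
    have h3 := Finset.sum_range_succ (fun i => (q + i) / a) a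
    have h4 : (q + a) / a = q / a + 1 := Nat.add_div_right q (by omega)
    rw [h1]
    simp only [add_zero] at h2
    omega

/-- one block: weights `2 q` with `1 ≤ q ≤ m + 2` -/
theorem block_cover (G : MGraph V E) (m r : ℕ) (q : E → ℕ) (hq1 : ∀ e, 1 ≤ q e)
    (hq2 : ∀ e, q e ≤ m + 2) (κ : V → Fin r) (hκ : Function.Surjective κ)
    (H : Finset E) (hHq : ∀ e ∈ H, q e = m + 2) (hH : ClassCon G κ H)
    (T : ℕ → Finset E) (hT : ∀ i < m + 2, ∀ j < m + 2, i ≠ j → Disjoint (T i) (T j))
    (hTq : ∀ j < m + 2, ∀ e ∈ T j, q e < m + 2) (hTc : ∀ j < m + 2, OuterCon G κ (T j))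
    (hpart : ∀ (n : ℕ) (c : V → Fin n), Function.Surjective c →
      (∀ x y, c x = c y → κ x = κ y) → r < n → (m + 2) * (n - r) + 1 ≤ (crossIn G κ c).card) :
    Cov G (fun e => 2 * q e) ∧ BL G univ := by
  classical
  obtain ⟨P, hP1, hP2, hP3⟩ := star G m r κ hκ (univ.filter (fun e => q e = m + 2))
    (by
      intro X x hx y hy hxy
      obtain ⟨e, he, hei, heX⟩ := hH X x hx y hy hxy
      exact ⟨e, Finset.mem_filter.2 ⟨Finset.mem_univ _, hHq e he⟩, hei, heX⟩)
    T hT (by
      intro j hj e he h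
      have h1 := hTq j hj e he
      have h2 := (Finset.mem_filter.1 h).2
      omega) hTc hpart
  constructor
  · apply core G m q hq1 hq2 P hP1
    · intro j e he
      have h1 := hP2 j e he
      have h2 := hq2 e
      have h3 : q e ≠ m + 2 := fun h => h1 (Finset.mem_filter.2 ⟨Finset.mem_univ _, h⟩)
      omega
    · intro j z hz
      obtain ⟨C, hC, hzC, hCs⟩ := hP3 j z hz
      refine ⟨C, hC, hzC, fun f hf => ?_⟩
      rcases hCs f hf with h | h | h
      · exact Or.inl h
      · exact Or.inr (Or.inl h)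
      · exact Or.inr (Or.inr (Finset.mem_filter.1 h).2)
  · intro e _
    have h : ∃ j, e ∉ P j := by
      by_contra hcon
      push Not at hcon
      exact Finset.disjoint_left.1 (hP1 0 1 (one_ne_fin_zero m).symm) (hcon 0) (hcon 1)
    obtain ⟨j, hj⟩ := h
    obtain ⟨C, hC, heC, _⟩ := hP3 j e hj
    exact ⟨C, hC, heC, Finset.subset_univ _⟩

lemma cov_two (G : MGraph V E) (h : BL G univ) : Cov G (fun _ => 2) := by
  classical
  obtain ⟨F, hF1, hF2⟩ := layer G (fun _ => True) (fun e _ => by
    obtain ⟨C, hC, heC, _⟩ := h e (Finset.mem_univ _)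
    exact ⟨C, hC, heC, fun _ _ => trivial⟩)
  exact ⟨F, hF1, fun e => by rw [hF2 e, if_pos trivial]⟩

lemma cov_sum (G : MGraph V E) {ι : Type} (s : Finset ι) (p : ι → E → ℕ)
    (h : ∀ i ∈ s, Cov G (p i)) : Cov G (fun e => ∑ i ∈ s, p i e) := by
  classical
  induction s using Finset.induction_on with
  | empty => exact ⟨0, by simp, by simp⟩
  | insert i s hi ih =>
    obtain ⟨M1, h1, h2⟩ := h i (Finset.mem_insert_self _ _)
    obtain ⟨M2, h3, h4⟩ := ih (fun j hj => h j (Finset.mem_insert_of_mem hj))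
    refine ⟨M1 + M2, ?_, ?_⟩
    · intro C hC
      rcases Multiset.mem_add.1 hC with h | h
      · exact h1 C h
      · exact h3 C h
    · intro e
      rw [Multiset.countP_add, h2 e, h4 e]
      show _ = ∑ j ∈ insert i s, p j e
      rw [Finset.sum_insert hi]

lemma cov_add (G : MGraph V E) (p p' : E → ℕ) (h : Cov G p) (h' : Cov G p') :
    Cov G (fun e => p e + p' e) := by
  obtain ⟨M1, h1, h2⟩ := h
  obtain ⟨M2, h3, h4⟩ := h'
  refine ⟨M1 + M2, ?_, ?_⟩
  · intro C hC
    rcases Multiset.mem_add.1 hC with h | h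
    · exact h1 C h
    · exact h3 C h
  · intro e
    rw [Multiset.countP_add, h2 e, h4 e]

/-- the main theorem -/
theorem main (G : MGraph V E) (k a h r : ℕ) (hk : 2 ≤ k) (ha : 1 ≤ a) (hka : h ≤ k * a)
    (p : E → ℕ) (hodd : ∀ v, Even (G.deg (univ.filter (fun e => ¬ Even (p e))) v))
    (hp1 : ∀ e, a ≤ p e / 2) (hp2 : ∀ e, p e / 2 ≤ h)
    (κ : V → Fin r) (hκ : Function.Surjective κ)
    (hH : ClassCon G κ (univ.filter (fun e => p e / 2 = h)))
    (T : ℕ → Finset E) (hT : ∀ i < k, ∀ j < k, i ≠ j → Disjoint (T i) (T j))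
    (hTl : ∀ j < k, ∀ e ∈ T j, p e / 2 + a ≤ h) (hTc : ∀ j < k, OuterCon G κ (T j))
    (hpart : ∀ (n : ℕ) (c : V → Fin n), Function.Surjective c →
      (∀ x y, c x = c y → κ x = κ y) → r < n → k * (n - r) + 1 ≤ (crossIn G κ c).card) :
    Cov G p := by
  classical
  set H : Finset E := univ.filter (fun e => p e / 2 = h) with hHdef
  -- the graph is bridgeless
  obtain ⟨k', rfl⟩ : ∃ k', k = k' + 2 := ⟨k - 2, by omega⟩
  have hmono : ∀ m : ℕ, m ≤ k' → ∀ (n : ℕ) (c : V → Fin n), Function.Surjective c →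
      (∀ x y, c x = c y → κ x = κ y) → r < n → (m + 2) * (n - r) + 1 ≤ (crossIn G κ c).card := by
    intro m hm n c h1 h2 h3
    have h4 := hpart n c h1 h2 h3
    have h5 : (m + 2) * (n - r) ≤ (k' + 2) * (n - r) := Nat.mul_le_mul_right _ (by omega)
    omega
  have hblock : ∀ (m : ℕ), m ≤ k' → ∀ q : E → ℕ, (∀ e, 1 ≤ q e) → (∀ e, q e ≤ m + 2) →
      (∀ e ∈ H, q e = m + 2) → (∀ j < m + 2, ∀ e ∈ T j, q e < m + 2) →
      Cov G (fun e => 2 * q e) ∧ BL G univ := by
    intro m hm q h1 h2 h3 h4
    exact block_cover G m r q h1 h2 κ hκ H h3 hH T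
      (fun i hi j hj => hT i (by omega) j (by omega)) h4 (fun j hj => hTc j (by omega))
      (hmono m hm)
  have hBL : BL G univ := by
    by_cases hE : ∃ e : E, True
    · refine (hblock 0 (by omega) (fun e => if p e / 2 = h then 2 else 1) ?_ ?_ ?_ ?_).2
      · intro e
        show 1 ≤ if p e / 2 = h then 2 else 1
        split_ifs <;> omega
      · intro e
        show (if p e / 2 = h then 2 else 1) ≤ 0 + 2
        split_ifs <;> omega
      · intro e he
        have h1 := (Finset.mem_filter.1 he).2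
        show (if p e / 2 = h then 2 else 1) = 0 + 2
        rw [if_pos h1]
      · intro j hj e he
        have h1 := hTl j (by omega) e he
        show (if p e / 2 = h then 2 else 1) < 0 + 2
        rw [if_neg (by omega)]
        omega
    · intro e _
      exact absurd ⟨e, trivial⟩ hE
  -- the blocks
  have hcov : ∀ i ∈ Finset.range a, Cov G (fun e => 2 * ((p e / 2 + i) / a)) := by
    intro i hi
    rw [Finset.mem_range] at hi
    have hge : ∀ e, 1 ≤ (p e / 2 + i) / a := by
      intro e
      rw [Nat.one_le_div_iff (by omega)]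
      have := hp1 e
      omega
    have hle : ∀ e, (p e / 2 + i) / a ≤ (h + i) / a := fun e =>
      Nat.div_le_div_right (by have := hp2 e; omega)
    have htop : (h + i) / a ≤ k' + 2 := by
      have h1 : (h + i) / a < k' + 2 + 1 := by
        rw [Nat.div_lt_iff_lt_mul (by omega)]
        have h2 : (k' + 2 + 1) * a = (k' + 2) * a + a := by ring
        omega
      omega
    have hHi : ∀ e ∈ H, (p e / 2 + i) / a = (h + i) / a := by
      intro e he
      rw [(Finset.mem_filter.1 he).2]
    have hTi : ∀ j < k' + 2, ∀ e ∈ T j, (p e / 2 + i) / a < (h + i) / a := by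
      intro j hj e he
      have h1 := hTl j hj e he
      have h2 : (p e / 2 + i) / a + 1 ≤ (h + i) / a := by
        rw [← Nat.add_div_right _ (by omega : 0 < a)]
        exact Nat.div_le_div_right (by omega)
      omega
    by_cases h2 : 2 ≤ (h + i) / a
    · obtain ⟨m, hm⟩ : ∃ m, (h + i) / a = m + 2 := ⟨(h + i) / a - 2, by omega⟩
      refine (hblock m (by omega) (fun e => (p e / 2 + i) / a) hge ?_ ?_ ?_).1
      · intro e; have := hle e; show (p e / 2 + i) / a ≤ m + 2; omega
      · intro e he; have := hHi e he; show (p e / 2 + i) / a = m + 2; omega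
      · intro j hj e he
        have := hTi j (by omega) e he
        show (p e / 2 + i) / a < m + 2
        omega
    · have h3 : (fun e => 2 * ((p e / 2 + i) / a)) = fun _ => 2 := by
        ext e
        have h4 := hge e
        have h5 := hle e
        omega
      rw [h3]
      exact cov_two G hBL
  have hsum := cov_sum G _ _ hcov
  -- the odd edges
  obtain ⟨F, hF1, hF2⟩ := G.decompose _ _ rfl hodd
  have hfin := cov_add G _ _ hsum ⟨F, hF1, hF2⟩
  have heq : (fun e => (∑ i ∈ Finset.range a, 2 * ((p e / 2 + i) / a)) +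
      (if e ∈ univ.filter (fun e => ¬ Even (p e)) then 1 else 0)) = p := by
    ext e
    rw [← Finset.mul_sum, hermite a ha]
    have hm : e ∈ univ.filter (fun e => ¬ Even (p e)) ↔ ¬ Even (p e) := by
      simp only [Finset.mem_filter, Finset.mem_univ, true_and]
    by_cases h1 : Even (p e)
    · have h2 : ¬ (e ∈ univ.filter (fun e => ¬ Even (p e))) := fun h => hm.1 h h1
      rw [if_neg h2]
      obtain ⟨b, hb⟩ := h1
      omega
    · have h2 : e ∈ univ.filter (fun e => ¬ Even (p e)) := hm.2 h1
      rw [if_pos h2]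
      rw [Nat.not_even_iff_odd] at h1
      obtain ⟨b, hb⟩ := h1
      omega
  rw [heq] at hfin
  exact hfin

end Run7.h949.EX
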