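import Pool.Agent.Run7.h949.EX.Core
import Pool.Agent.Run7.h949.EX.Colour

set_option autoImplicit false
set_option linter.unusedSectionVars false

/-!
The light sets: a partition of the vertices into classes which are connected by heavy edges, and
disjoint sets of light edges connecting the classes.
-/

namespace Run7.h949.EX

open Finset
open Pool.Agent.H126R2.CDC
open Pool.Agent.TH300.FC (cut layer cut_or_circuit ind mem_cut_iff)
open Pool.Agent.Helper879.ECD (F2 f2_cases)

variable {V E : Type} [Fintype V] [DecidableEq V] [Fintype E] [DecidableEq E]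

lemma mem_cut (G : MGraph V E) (X : Finset V) (e : E) :
    e ∈ cut G X ↔ (∃ x, x ∈ X ∧ x ∈ G.ends e) ∧ ∃ y, y ∉ X ∧ y ∈ G.ends e := by
  classical
  unfold cut
  simp only [Finset.mem_filter, Finset.mem_univ, true_and]

lemma f2a : ∀ a b c d : F2, a + b = 1 → c + d = 1 → a + c = b + d := by decide

lemma f2b : ∀ a b c d : F2, ¬ a + b = 1 → ¬ c + d = 1 → a + c = b + d := by decide

lemma f2c : ∀ a b c d : F2, a + c = b + d → a + b = 1 → c + d = 1 := by decide

lemma f2d : ∀ a : F2, a + a = 1 → False := by decide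

lemma cut_nonempty (G : MGraph V E) (X : Finset V) {z : E} (hz : z ∈ cut G X) :
    X.Nonempty ∧ X ≠ univ := by
  classical
  obtain ⟨⟨x, hx, _⟩, ⟨y, hy, _⟩⟩ := (mem_cut G X z).1 hz
  refine ⟨⟨x, hx⟩, fun h => ?_⟩
  rw [h] at hy
  exact hy (Finset.mem_univ _)

/-- all ends of `e` lie in one class -/
def inner (G : MGraph V E) {r : ℕ} (κ : V → Fin r) (e : E) : Prop :=
  ∀ x ∈ G.ends e, ∀ y ∈ G.ends e, κ x = κ y

/-- the edges of `H` inside the classes connect every class -/
def ClassCon (G : MGraph V E) {r : ℕ} (κ : V → Fin r) (H : Finset E) : Prop :=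
  ∀ X : Finset V, ∀ x ∈ X, ∀ y, y ∉ X → κ x = κ y → ∃ e ∈ H, inner G κ e ∧ e ∈ cut G X

/-- the edges of `T` connect the classes -/
def OuterCon (G : MGraph V E) {r : ℕ} (κ : V → Fin r) (T : Finset E) : Prop :=
  ∀ X : Finset V, X.Nonempty → X ≠ univ → (∀ x y, κ x = κ y → (x ∈ X ↔ y ∈ X)) →
    ∃ e ∈ T, e ∈ cut G X

open Classical in
/-- the edges inside the classes of `κ` which join different classes of the refinement `c` -/
noncomputable def crossIn (G : MGraph V E) {r n : ℕ} (κ : V → Fin r) (c : V → Fin n) : Finset E :=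
  univ.filter (fun e => inner G κ e ∧ ∃ x ∈ G.ends e, ∃ y ∈ G.ends e, c x ≠ c y)

lemma mem_crossIn (G : MGraph V E) {r n : ℕ} (κ : V → Fin r) (c : V → Fin n) (e : E) :
    e ∈ crossIn G κ c ↔ inner G κ e ∧ ∃ x ∈ G.ends e, ∃ y ∈ G.ends e, c x ≠ c y := by
  classical
  unfold crossIn
  simp only [Finset.mem_filter, Finset.mem_univ, true_and]

/-- two vertex sets whose cuts contain the same inner edge `z` of `H`, and no other inner edge of
`H`, have the same inner edges in their cuts -/
lemma cut_unique (G : MGraph V E) {r : ℕ} (κ : V → Fin r) (H : Finset E) (hH : ClassCon G κ H)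
    (z : E) (X Y : Finset V)
    (hX : z ∈ cut G X) (hY : z ∈ cut G Y) (hX' : ∀ g ∈ cut G X, g ∈ H → inner G κ g → g = z)
    (hY' : ∀ g ∈ cut G Y, g ∈ H → inner G κ g → g = z) (x : E) (hxi : inner G κ x)
    (hx : x ∈ cut G X) : x ∈ cut G Y := by
  classical
  obtain ⟨v, hv⟩ := G.exists_halves
  -- the sum of the two indicators is constant on the classes
  let s : V → F2 := fun w => ind X w + ind Y w
  have hHs : ∀ e ∈ H, inner G κ e → s (v (e, false)) = s (v (e, true)) := by
    intro e he hei
    have h1 := mem_cut_iff G v hv X e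
    have h2 := mem_cut_iff G v hv Y e
    simp only [s]
    by_cases hez : e = z
    · subst hez
      exact f2a _ _ _ _ (h1.1 hX) (h2.1 hY)
    · have h3 : ¬ (ind X (v (e, false)) + ind X (v (e, true)) = 1) := fun h =>
        hez (hX' e (h1.2 h) he hei)
      have h4 : ¬ (ind Y (v (e, false)) + ind Y (v (e, true)) = 1) := fun h =>
        hez (hY' e (h2.2 h) he hei)
      exact f2b _ _ _ _ h3 h4
  have hone : ∀ w w', κ w = κ w' → s w = 1 → s w' = 0 → False := by
    intro w w' hκ hw hw'
    obtain ⟨e, heH, hei, heX⟩ := hH (univ.filter (fun u => s u = 1)) w (by simp [hw]) w' (by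
      intro h
      rw [Finset.mem_filter, hw'] at h
      exact absurd h.2 (by decide)) hκ
    rw [mem_cut_iff G v hv] at heX
    have h4 : ∀ x, ind (univ.filter (fun u => s u = 1)) x = s x := by
      intro x
      unfold ind
      rcases f2_cases (s x) with h5 | h5 <;> simp [h5]
    rw [h4, h4, hHs e heH hei] at heX
    exact f2d _ heX
  have hconst : ∀ w w', κ w = κ w' → s w = s w' := by
    intro w w' hκ
    rcases f2_cases (s w) with h1 | h1 <;> rcases f2_cases (s w') with h2 | h2
    · exact h1.trans h2.symm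
    · exact (hone w' w hκ.symm h2 h1).elim
    · exact (hone w w' hκ h1 h2).elim
    · exact h1.trans h2.symm
  have h0 : κ (v (x, false)) = κ (v (x, true)) := by
    apply hxi
    · rw [hv x]; exact Sym2.mem_mk_left _ _
    · rw [hv x]; exact Sym2.mem_mk_right _ _
  have h1 := hconst _ _ h0
  have h2 := (mem_cut_iff G v hv X x).1 hx
  rw [mem_cut_iff G v hv Y x]
  simp only [s] at h1
  exact f2c _ _ _ _ h1 h2

/-- inner edges `f` with cuts `X f` such that `f` is the only edge of the family in `cut (X f)`: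
every edge adds a class -/
lemma classes (G : MGraph V E) {r : ℕ} (κ : V → Fin r) (hκ : Function.Surjective κ)
    (X : E → Finset V) (S : Finset E) (h0 : ∀ f ∈ S, inner G κ f)
    (h1 : ∀ f ∈ S, f ∈ cut G (X f)) (h2 : ∀ f ∈ S, ∀ g ∈ S, g ∈ cut G (X f) → g = f) :
    S.card + r ≤ (univ.image (fun v : V => (κ v, S.filter (fun f => v ∈ X f)))).card := by
  classical
  induction S using Finset.induction_on with
  | empty =>
    rw [Finset.card_empty, zero_add]
    have h3 : (univ.image (fun v : V => (κ v, (∅ : Finset E).filter (fun f => v ∈ X f)))).image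
        Prod.fst = univ := by
      rw [Finset.image_image]
      apply Finset.eq_univ_of_forall
      intro a
      obtain ⟨v, hv⟩ := hκ a
      exact Finset.mem_image.2 ⟨v, Finset.mem_univ _, hv⟩
    calc r = (univ : Finset (Fin r)).card := by rw [Finset.card_univ, Fintype.card_fin]
      _ ≤ _ := by rw [← h3]; exact Finset.card_image_le
  | insert f S hf ih =>
    have ih' := ih (fun g hg => h0 g (Finset.mem_insert_of_mem hg))
      (fun g hg => h1 g (Finset.mem_insert_of_mem hg))
      (fun g hg g' hg' => h2 g (Finset.mem_insert_of_mem hg) g' (Finset.mem_insert_of_mem hg'))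
    rw [Finset.card_insert_of_notMem hf]
    have himg : ((univ.image (fun v : V => (κ v, (insert f S).filter (fun f => v ∈ X f)))).image
        (fun T => (T.1, T.2.erase f))) =
        univ.image (fun v : V => (κ v, S.filter (fun f => v ∈ X f))) := by
      rw [Finset.image_image]
      apply Finset.image_congr
      intro v _
      refine Prod.ext rfl ?_
      ext g
      simp only [Function.comp, Finset.mem_erase, Finset.mem_filter, Finset.mem_insert]
      constructor
      · rintro ⟨h3, h4 | h4, h5⟩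
        · exact absurd h4 h3
        · exact ⟨h4, h5⟩
      · rintro ⟨h3, h4⟩
        refine ⟨fun h5 => ?_, Or.inr h3, h4⟩
        subst h5
        exact hf h3
    have hlt : (univ.image (fun v : V => (κ v, S.filter (fun f => v ∈ X f)))).card <
        (univ.image (fun v : V => (κ v, (insert f S).filter (fun f => v ∈ X f)))).card := by
      rw [← himg]
      apply lt_of_le_of_ne Finset.card_image_le
      intro heq
      rw [Finset.card_image_iff] at heq
      have hfi := h0 f (Finset.mem_insert_self _ _)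
      obtain ⟨⟨x, hx, hxf⟩, ⟨y, hy, hyf⟩⟩ := (mem_cut G (X f) f).1
        (h1 f (Finset.mem_insert_self _ _))
      have h3 : (κ x, (insert f S).filter (fun g => x ∈ X g)) =
          (κ y, (insert f S).filter (fun g => y ∈ X g)) := by
        apply heq
        · exact Finset.mem_coe.2 (Finset.mem_image_of_mem _ (Finset.mem_univ _))
        · exact Finset.mem_coe.2 (Finset.mem_image_of_mem _ (Finset.mem_univ _))
        · refine Prod.ext (hfi x hxf y hyf) ?_
          show ((insert f S).filter (fun g => x ∈ X g)).erase f =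
            ((insert f S).filter (fun g => y ∈ X g)).erase f
          ext g
          simp only [Finset.mem_erase, Finset.mem_filter, Finset.mem_insert]
          constructor
          · rintro ⟨h3, h4 | h4, h5⟩
            · exact absurd h4 h3
            · refine ⟨h3, Or.inr h4, ?_⟩
              by_contra hcon
              apply h3
              symm
              apply h2 g (Finset.mem_insert_of_mem h4) f (Finset.mem_insert_self _ _)
              exact (mem_cut G (X g) f).2 ⟨⟨x, h5, hxf⟩, ⟨y, hcon, hyf⟩⟩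
          · rintro ⟨h3, h4 | h4, h5⟩
            · exact absurd h4 h3
            · refine ⟨h3, Or.inr h4, ?_⟩
              by_contra hcon
              apply h3
              symm
              apply h2 g (Finset.mem_insert_of_mem h4) f (Finset.mem_insert_self _ _)
              exact (mem_cut G (X g) f).2 ⟨⟨y, h5, hyf⟩, ⟨x, hcon, hxf⟩⟩
      have h4 : f ∈ (insert f S).filter (fun g => x ∈ X g) :=
        Finset.mem_filter.2 ⟨Finset.mem_insert_self _ _, hx⟩
      have h5 : (insert f S).filter (fun g => x ∈ X g) = (insert f S).filter (fun g => y ∈ X g) :=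
        (Prod.ext_iff.1 h3).2
      rw [h5] at h4
      exact hy (Finset.mem_filter.1 h4).2
    omega

/-- the light sets -/
theorem star (G : MGraph V E) (m r : ℕ) (κ : V → Fin r) (hκ : Function.Surjective κ)
    (H : Finset E) (hH : ClassCon G κ H)
    (T : ℕ → Finset E) (hT : ∀ i < m + 2, ∀ j < m + 2, i ≠ j → Disjoint (T i) (T j))
    (hTH : ∀ j < m + 2, ∀ e ∈ T j, e ∉ H) (hTc : ∀ j < m + 2, OuterCon G κ (T j))
    (hpart : ∀ (n : ℕ) (c : V → Fin n), Function.Surjective c →
      (∀ x y, c x = c y → κ x = κ y) → r < n → (m + 2) * (n - r) + 1 ≤ (crossIn G κ c).card) :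
    ∃ P : Fin (m + 2) → Finset E, (∀ i j, i ≠ j → Disjoint (P i) (P j)) ∧
      (∀ j, ∀ e ∈ P j, e ∉ H) ∧
      ∀ j, ∀ z, z ∉ P j → ∃ C, G.IsCircuit C ∧ z ∈ C ∧ ∀ f ∈ C, f = z ∨ f ∈ P j ∨ f ∈ H := by
  classical
  -- the bridges
  let Q : E → Finset V → Prop := fun f X =>
    f ∈ cut G X ∧ ∀ g ∈ cut G X, g ∈ H → inner G κ g → g = f
  let I : Finset E := univ.filter (fun f => (f ∈ H ∧ inner G κ f) ∧ ∃ X, Q f X)
  have memI : ∀ f, f ∈ I ↔ (f ∈ H ∧ inner G κ f) ∧ ∃ X, Q f X := by
    intro f
    simp only [I, Finset.mem_filter, Finset.mem_univ, true_and]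
  have hX : ∀ f : E, ∃ X : Finset V, f ∈ I → Q f X := by
    intro f
    by_cases hf : f ∈ I
    · obtain ⟨_, X, hX⟩ := (memI f).1 hf
      exact ⟨X, fun _ => hX⟩
    · exact ⟨∅, fun h => absurd h hf⟩
  choose X hX using hX
  let D : {f // f ∈ I} → Finset E := fun f =>
    (cut G (X f.1)).filter (fun g => inner G κ g ∧ g ≠ f.1)
  have hDH : ∀ f : {f // f ∈ I}, ∀ g ∈ D f, g ∉ H := by
    intro f g hg hgH
    obtain ⟨h1, h2, h3⟩ := Finset.mem_filter.1 hg
    exact h3 ((hX f.1 f.2).2 g h1 hgH h2)
  obtain ⟨col, hcol⟩ := colouring (m + 1) D (by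
    intro S hS
    let S' : Finset E := S.map (Function.Embedding.subtype _)
    have hS' : S'.card = S.card := Finset.card_map _
    have memS' : ∀ f, f ∈ S' → ∃ h : f ∈ I, (⟨f, h⟩ : {f // f ∈ I}) ∈ S := by
      intro f hf
      obtain ⟨a, ha, rfl⟩ := Finset.mem_map.1 hf
      exact ⟨a.2, ha⟩
    have hcl := classes G κ hκ X S' (by
      intro f hf
      obtain ⟨h, _⟩ := memS' f hf
      exact ((memI f).1 h).1.2) (by
      intro f hf
      obtain ⟨h, _⟩ := memS' f hf
      exact (hX f h).1) (by
      intro f hf g hg hgf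
      obtain ⟨h, _⟩ := memS' f hf
      obtain ⟨h', _⟩ := memS' g hg
      exact (hX f h).2 g hgf ((memI g).1 h').1.1 ((memI g).1 h').1.2)
    set Im := univ.image (fun v : V => (κ v, S'.filter (fun f => v ∈ X f))) with hIm
    have hSpos : 0 < S.card := Finset.card_pos.2 hS
    let c : V → Fin Im.card := fun v => Im.equivFin ⟨(κ v, S'.filter (fun f => v ∈ X f)), by
      rw [hIm]; exact Finset.mem_image_of_mem _ (Finset.mem_univ v)⟩
    have hceq : ∀ x y, c x = c y ↔ (κ x, S'.filter (fun f => x ∈ X f)) =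
        (κ y, S'.filter (fun f => y ∈ X f)) := by
      intro x y
      simp only [c]
      rw [Im.equivFin.apply_eq_iff_eq, Subtype.mk_eq_mk]
    have hcsurj : Function.Surjective c := by
      intro a
      obtain ⟨⟨T, hT⟩, hTa⟩ := Im.equivFin.surjective a
      have hT' := hT
      rw [hIm, Finset.mem_image] at hT'
      obtain ⟨v, _, hv⟩ := hT'
      refine ⟨v, ?_⟩
      rw [← hTa]
      simp only [c]
      congr 1
      exact Subtype.ext hv
    have hcr := hpart Im.card c hcsurj
      (fun x y hxy => (Prod.ext_iff.1 ((hceq x y).1 hxy)).1) (by omega)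
    have hsub : crossIn G κ c ⊆ S' ∪ S.biUnion D := by
      intro e he
      obtain ⟨hei, x, hx, y, hy, hxy⟩ := (mem_crossIn G κ c e).1 he
      obtain ⟨f, hf, hfe⟩ : ∃ f ∈ S', e ∈ cut G (X f) := by
        by_contra hcon
        push Not at hcon
        apply hxy
        rw [hceq]
        refine Prod.ext (hei x hx y hy) ?_
        apply Finset.filter_congr
        intro f hf
        have h1 := hcon f hf
        rw [mem_cut] at h1
        constructor
        · intro h2
          by_contra h3
          exact h1 ⟨⟨x, h2, hx⟩, ⟨y, h3, hy⟩⟩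
        · intro h2
          by_contra h3
          exact h1 ⟨⟨y, h2, hy⟩, ⟨x, h3, hx⟩⟩
      obtain ⟨hfI, hfS⟩ := memS' f hf
      rw [Finset.mem_union]
      by_cases hef : e = f
      · left; rw [hef]; exact hf
      · right
        rw [Finset.mem_biUnion]
        exact ⟨⟨f, hfI⟩, hfS, Finset.mem_filter.2 ⟨hfe, hei, hef⟩⟩
    have hcard := (Finset.card_le_card hsub).trans (Finset.card_union_le _ _)
    rw [hS'] at hcard
    have hmul : (m + 2) * S.card ≤ (m + 2) * (Im.card - r) := by
      apply Nat.mul_le_mul_left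
      omega
    have hexp : (m + 2) * S.card = (m + 1) * S.card + S.card := by ring
    omega)
  let P : Fin (m + 2) → Finset E := fun j => univ.filter (fun e =>
    (e ∈ T j.1 ∧ ¬ inner G κ e) ∨ ((inner G κ e ∧ e ∉ H) ∧ col e = j))
  have memP : ∀ j e, e ∈ P j ↔
      (e ∈ T j.1 ∧ ¬ inner G κ e) ∨ ((inner G κ e ∧ e ∉ H) ∧ col e = j) := by
    intro j e
    simp only [P, Finset.mem_filter, Finset.mem_univ, true_and]
  refine ⟨P, ?_, ?_, ?_⟩
  · intro i j hij
    rw [Finset.disjoint_left]
    intro e h1 h2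
    rcases (memP i e).1 h1 with h3 | h3 <;> rcases (memP j e).1 h2 with h4 | h4
    · exact Finset.disjoint_left.1 (hT i.1 i.2 j.1 j.2 (fun h => hij (Fin.ext h))) h3.1 h4.1
    · exact h3.2 h4.1.1
    · exact h4.2 h3.1.1
    · exact hij (h3.2.symm.trans h4.2)
  · intro j e he
    rcases (memP j e).1 he with h3 | h3
    · exact hTH j.1 j.2 e h3.1
    · exact h3.1.2
  · intro j z hz
    rcases cut_or_circuit G (univ.filter (fun g => g ∉ H ∧ g ∉ P j ∧ g ≠ z)) z
      (fun h => (Finset.mem_filter.1 h).2.2.2 rfl) with ⟨Y, h3, h4⟩ | ⟨C, hC, hzC, hCs⟩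
    · exfalso
      have h5 : ∀ g ∈ cut G Y, g = z ∨ (g ∉ H ∧ g ∉ P j) := by
        intro g hg
        rcases h4 g hg with h | h
        · exact Or.inl h
        · exact Or.inr ⟨(Finset.mem_filter.1 h).2.1, (Finset.mem_filter.1 h).2.2.1⟩
      have hQY : ∀ g ∈ cut G Y, g ∈ H → inner G κ g → g = z := by
        intro g hg hgH _
        rcases h5 g hg with h | h
        · exact h
        · exact absurd hgH h.1
      by_cases hzH : z ∈ H ∧ inner G κ z
      · have hzI : z ∈ I := (memI z).2 ⟨hzH, Y, h3, hQY⟩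
        obtain ⟨x, hxD, hxj⟩ := hcol ⟨z, hzI⟩ j
        obtain ⟨hxX, hxi, hxz⟩ := Finset.mem_filter.1 hxD
        have hxY := cut_unique G κ H hH z (X z) Y (hX z hzI).1 h3 (hX z hzI).2 hQY x hxi hxX
        rcases h5 x hxY with h | h
        · exact hxz h
        · exact h.2 ((memP j x).2 (Or.inr ⟨⟨hxi, h.1⟩, hxj⟩))
      · have hcls : ∀ x y, κ x = κ y → x ∈ Y → y ∈ Y := by
          intro x y hxy hx
          by_contra hy
          obtain ⟨e, heH, hei, heY⟩ := hH Y x hx y hy hxy
          have hez := hQY e heY heH hei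
          subst hez
          exact hzH ⟨heH, hei⟩
        obtain ⟨hne, hnu⟩ := cut_nonempty G Y h3
        obtain ⟨e, heT, heY⟩ := hTc j.1 j.2 Y hne hnu (fun x y hxy =>
          ⟨hcls x y hxy, hcls y x hxy.symm⟩)
        have hen : ¬ inner G κ e := by
          intro hei
          obtain ⟨⟨x, hx, hxe⟩, ⟨y, hy, hye⟩⟩ := (mem_cut G Y e).1 heY
          exact hy (hcls x y (hei x hxe y hye) hx)
        have heP : e ∈ P j := (memP j e).2 (Or.inl ⟨heT, hen⟩)
        rcases h5 e heY with h | h
        · subst h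
          exact hz heP
        · exact h.2 heP
    · refine ⟨C, hC, hzC, fun f hf => ?_⟩
      by_contra hcon
      push Not at hcon
      exact hCs f hf (Finset.mem_filter.2 ⟨Finset.mem_univ _, hcon.2.2, hcon.2.1, hcon.1⟩)

end Run7.h949.EX
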